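import Pool.Agent.N173.BG.Stm

/-!
Project BG (helper173), part BIG (helper80): the exponential sum over a set whose `(M + 1)`-fold sums lie in the
spectrum is large on a large set.
-/

set_option autoImplicit false

namespace Pool.Agent.N80.BG

open Finset Pool.Agent.TH858 Pool.Agent.TH858.GP Pool.Agent.N173.BG

private lemma wt_le {N : ℕ} [NeZero N] (Q : Finset (ZMod N)) (x : ZMod N) :
    wt Q x ≤ (Q.card : ℝ) ^ 2 := by
  unfold wt
  refine pow_le_pow_left₀ (norm_nonneg _) ?_ 2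
  refine (norm_sum_le _ _).trans ?_
  simp only [ψ_norm]
  simp

private lemma sum_bound {N : ℕ} [NeZero N] (Q : Finset (ZMod N)) (M : ℕ) :
    ∑ x : ZMod N, wt Q x ^ (M + 1) ≤
      ((univ.filter fun x : ZMod N => (Q.card : ℝ) ^ 2 / 4 ≤ wt Q x).card : ℝ) * ((Q.card : ℝ) ^ 2) ^ (M + 1)
        + ((Q.card : ℝ) ^ 2 / 4) ^ M * (N * Q.card) := by
  classical
  rw [← sum_wt Q, Finset.mul_sum]
  have h1 : ((univ.filter fun x : ZMod N => (Q.card : ℝ) ^ 2 / 4 ≤ wt Q x).card : ℝ) *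
      ((Q.card : ℝ) ^ 2) ^ (M + 1) =
      ∑ x : ZMod N, if (Q.card : ℝ) ^ 2 / 4 ≤ wt Q x then ((Q.card : ℝ) ^ 2) ^ (M + 1) else 0 := by
    rw [← Finset.sum_filter, Finset.sum_const, nsmul_eq_mul]
  rw [h1, ← Finset.sum_add_distrib]
  refine Finset.sum_le_sum fun x _ => ?_
  have hw := wt_nonneg Q x
  split_ifs with h
  · have : wt Q x ^ (M + 1) ≤ ((Q.card : ℝ) ^ 2) ^ (M + 1) := pow_le_pow_left₀ hw (wt_le Q x) _
    have h3 : 0 ≤ ((Q.card : ℝ) ^ 2 / 4) ^ M * wt Q x := by positivity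
    linarith
  · rw [zero_add, pow_succ]
    refine mul_le_mul_of_nonneg_right ?_ hw
    exact pow_le_pow_left₀ hw (not_le.mp h).le _

private lemma arith (n q x t W s : ℝ) (M : ℕ) (hM : 1 ≤ M) (hn : 0 < n) (hq : 1 ≤ q) (hx : 1 ≤ x)
    (hW : 0 ≤ W) (hN : 4 * n ≤ Real.exp M * x)
    (a1 : n * q ^ (2 * (M + 1)) ≤ t * W) (a2 : t * x ≤ 2 * n)
    (a3 : W ≤ s * (q ^ 2) ^ (M + 1) + (q ^ 2 / 4) ^ M * (n * q)) (hs : 0 ≤ s) : x ≤ 4 * s := by
  have b1 : x * (n * q ^ (2 * (M + 1))) ≤ 2 * n * W := by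
    calc x * (n * q ^ (2 * (M + 1))) ≤ x * (t * W) := mul_le_mul_of_nonneg_left a1 (by linarith)
      _ = (t * x) * W := by ring
      _ ≤ 2 * n * W := mul_le_mul_of_nonneg_right a2 hW
  have b2 : x * q ^ (2 * (M + 1)) ≤ 2 * W := by
    have : n * (x * q ^ (2 * (M + 1))) ≤ n * (2 * W) := by linarith
    exact le_of_mul_le_mul_left this hn
  obtain ⟨P, hP⟩ : ∃ P : ℝ, P = (q ^ 2) ^ (M + 1) := ⟨_, rfl⟩
  have hPpos : 0 < P := by rw [hP]; positivity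
  have b3 : (q ^ 2 / 4) ^ M * (n * q) ≤ P * (n / 4 ^ M) := by
    rw [hP, div_pow, pow_succ (q ^ 2) M]
    have h5 : (q ^ 2) ^ M / 4 ^ M * (n * q) = ((q ^ 2) ^ M * (n / 4 ^ M)) * q := by ring
    have h6 : (q ^ 2) ^ M * q ^ 2 * (n / 4 ^ M) = ((q ^ 2) ^ M * (n / 4 ^ M)) * q ^ 2 := by ring
    rw [h5, h6]
    refine mul_le_mul_of_nonneg_left ?_ (by positivity)
    nlinarith
  have b4 : x ≤ 2 * s + 2 * (n / 4 ^ M) := by
    rw [pow_mul, ← hP] at b2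
    rw [← hP] at a3
    have : P * x ≤ P * (2 * s + 2 * (n / 4 ^ M)) := by nlinarith
    exact le_of_mul_le_mul_left this hPpos
  have b5 : 2 * (n / 4 ^ M) ≤ (1 / 2) * (Real.exp 1 / 4) ^ M * x := by
    have h7 : Real.exp M = Real.exp 1 ^ M := by
      rw [← Real.exp_nat_mul, mul_one]
    rw [h7] at hN
    rw [div_pow]
    have h8 : (0 : ℝ) < 4 ^ M := by positivity
    have h9 : 2 * (n / 4 ^ M) = (4 * n) / 4 ^ M / 2 := by ring
    have h10 : 1 / 2 * (Real.exp 1 ^ M / 4 ^ M) * x = (Real.exp 1 ^ M * x) / 4 ^ M / 2 := by ring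
    rw [h9, h10]
    gcongr
  have he := Real.exp_one_lt_d9
  have b6 : (Real.exp 1 / 4) ^ M ≤ Real.exp 1 / 4 := by
    refine pow_le_of_le_one (by positivity) ?_ (by omega)
    linarith
  have b7 : (1 / 2) * (Real.exp 1 / 4) ^ M * x ≤ (1 / 2) * (2.7182818286 / 4) * x := by
    refine mul_le_mul_of_nonneg_right ?_ (by linarith)
    linarith
  have : x ≤ 2 * s + (1 / 2) * (2.7182818286 / 4) * x := by linarith
  norm_num at this
  linarith

theorem t_BIG (h1 : S_MOM) (h2 : S_CARD) : S_BIG := by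
  intro N _ X Q M hX hQ hM hN hT
  obtain ⟨s, hs⟩ : ∃ s : ℝ, s =
      ((univ.filter fun x : ZMod N => (Q.card : ℝ) ^ 2 / 4 ≤ wt Q x).card : ℝ) := ⟨_, rfl⟩
  have hs0 : 0 ≤ s := by rw [hs]; positivity
  have a1 := h1 N Q (Sp X (1 / 2)) (M + 1) hT
  have a2 := h2 N X hX
  have a3 := sum_bound Q M
  rw [← hs] at a3 ⊢
  have hNpos : (0 : ℝ) < N := by exact_mod_cast (NeZero.pos N)
  have hq1 : (1 : ℝ) ≤ Q.card := by exact_mod_cast hQ.card_pos
  have hx1 : (1 : ℝ) ≤ X.card := by exact_mod_cast hX.card_pos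
  exact arith N Q.card X.card _ _ s M hM hNpos hq1 hx1
    (Finset.sum_nonneg fun x _ => pow_nonneg (wt_nonneg Q x) _) hN a1 a2 a3 hs0

end Pool.Agent.N80.BG
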